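import Mathlib

set_option autoImplicit false
set_option maxHeartbeats 4000000

/-! Points in strictly convex position in the plane can be listed counterclockwise. -/

namespace Pool.Agent.W31.ELV

def cross (a b c : EuclideanSpace ℝ (Fin 2)) : ℝ :=
  (b 0 - a 0) * (c 1 - a 1) - (b 1 - a 1) * (c 0 - a 0)

theorem spos {x y : ℝ} (hx : 0 ≤ x) (h : 0 < x ∨ 0 < y) : 0 < x + |y| := by
  rcases h with h | h
  · have := abs_nonneg y; linarith
  · have := abs_pos.2 h.ne'; linarith

theorem key_lt {ax ay bx bz : ℝ} (ha : 0 ≤ ax) (ha' : 0 < ax ∨ 0 < ay) (hb : 0 ≤ bx)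
    (hb' : 0 < bx ∨ 0 < bz) (h : 0 < ax * bz - ay * bx) :
    ay / (ax + |ay|) < bz / (bx + |bz|) := by
  have h1 := spos ha ha'
  have h2 := spos hb hb'
  rw [div_lt_div_iff₀ h1 h2]
  rcases le_or_gt 0 ay with h3 | h3 <;> rcases le_or_gt 0 bz with h4 | h4
  · rw [abs_of_nonneg h3, abs_of_nonneg h4]; nlinarith
  · nlinarith [mul_nonneg h3 hb, mul_nonneg ha (neg_pos.2 h4).le]
  · rw [abs_of_neg h3, abs_of_nonneg h4]; nlinarith [mul_nonneg (neg_pos.2 h3).le h4]
  · rw [abs_of_neg h3, abs_of_neg h4]; nlinarith

theorem par {ax ay bx bz : ℝ} (ha : 0 ≤ ax) (ha' : 0 < ax ∨ 0 < ay) (hb : 0 ≤ bx)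
    (hb' : 0 < bx ∨ 0 < bz) (h : ax * bz - ay * bx = 0) :
    bx * (ax + |ay|) = ax * (bx + |bz|) ∧ bz * (ax + |ay|) = ay * (bx + |bz|) := by
  have e1 : bx * |ay| = ax * |bz| := by
    have : |ax * bz| = |ay * bx| := by congr 1; linarith
    rw [abs_mul, abs_mul, abs_of_nonneg ha, abs_of_nonneg hb] at this
    linarith
  refine ⟨by linarith, ?_⟩
  rcases le_or_gt 0 ay with h3 | h3 <;> rcases le_or_gt 0 bz with h4 | h4
  · rw [abs_of_nonneg h3, abs_of_nonneg h4]; linarith
  · rcases h3.eq_or_lt with h5 | h5
    · subst h5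
      have : ax * bz = 0 := by linarith
      rcases mul_eq_zero.1 this with h6 | h6
      · subst h6; simp at ha'
      · exact absurd h6 h4.ne
    · exfalso
      have q1 : ax * bz ≤ 0 := mul_nonpos_of_nonneg_of_nonpos ha h4.le
      have q2 : 0 ≤ ay * bx := mul_nonneg h5.le hb
      have q3 : ay * bx = 0 := by linarith
      rcases mul_eq_zero.1 q3 with h6 | h6
      · exact absurd h6 h5.ne'
      · rcases hb' with h7 | h7
        · exact absurd h6 h7.ne'
        · linarith
  · rcases h4.eq_or_lt with h5 | h5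
    · subst h5
      have : ay * bx = 0 := by linarith
      rcases mul_eq_zero.1 this with h6 | h6
      · exact absurd h6 h3.ne
      · subst h6; simp at hb'
    · exfalso
      have q1 : 0 ≤ ax * bz := mul_nonneg ha h5.le
      have q2 : ay * bx ≤ 0 := mul_nonpos_of_nonpos_of_nonneg h3.le hb
      have q3 : ax * bz = 0 := by linarith
      rcases mul_eq_zero.1 q3 with h6 | h6
      · rcases ha' with h7 | h7
        · exact absurd h6 h7.ne'
        · linarith
      · exact absurd h6 h5.ne'
  · rw [abs_of_neg h3, abs_of_neg h4]; linarith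

theorem hcomb {n : ℕ} (p : Fin n → EuclideanSpace ℝ (Fin 2))
    (h : ∀ i : Fin n, p i ∉ convexHull ℝ (p '' {j : Fin n | j ≠ i}))
    (a b c d : Fin n) (hab : a ≠ b) (hcb : c ≠ b) (hdb : d ≠ b) (u v w : ℝ)
    (hu : 0 ≤ u) (hv : 0 ≤ v) (hw : 0 ≤ w) (hs : u + v + w = 1)
    (h0 : p b 0 = u * p a 0 + v * p c 0 + w * p d 0)
    (h1 : p b 1 = u * p a 1 + v * p c 1 + w * p d 1) : False := by
  apply h b
  have e : p b = u • p a + v • p c + w • p d := by
    ext i
    fin_cases i
    · simpa using h0
    · simpa using h1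
  have hc := convex_convexHull ℝ (p '' {j : Fin n | j ≠ b})
  have ma : p a ∈ convexHull ℝ (p '' {j : Fin n | j ≠ b}) := subset_convexHull ℝ _ ⟨a, hab, rfl⟩
  have mc : p c ∈ convexHull ℝ (p '' {j : Fin n | j ≠ b}) := subset_convexHull ℝ _ ⟨c, hcb, rfl⟩
  have md : p d ∈ convexHull ℝ (p '' {j : Fin n | j ≠ b}) := subset_convexHull ℝ _ ⟨d, hdb, rfl⟩
  rw [e]
  have := hc.sum_mem (t := Finset.univ) (w := ![u, v, w]) (z := ![p a, p c, p d])
    (by intro i _; fin_cases i <;> simp [hu, hv, hw])
    (by simp [Fin.sum_univ_three, hs])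
    (by intro i _; fin_cases i <;> simp [ma, mc, md])
  simpa [Fin.sum_univ_three] using this

theorem reindex {n : ℕ} (p : Fin n → EuclideanSpace ℝ (Fin 2))
    (h : ∀ i : Fin n, p i ∉ convexHull ℝ (p '' {j : Fin n | j ≠ i})) :
    ∃ e : Fin n ≃ Fin n, ∀ i j k, i < j → j < k →
      0 < cross (p (e i)) (p (e j)) (p (e k)) := by
  rcases Nat.eq_zero_or_pos n with hn | hn
  · subst hn
    exact ⟨Equiv.refl _, fun i => i.elim0⟩
  have : Nonempty (Fin n) := ⟨⟨0, hn⟩⟩
  obtain ⟨o, ho⟩ := Finite.exists_min (fun i => toLex (p i 0, p i 1))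
  have hlex : ∀ i, i ≠ o → 0 ≤ p i 0 - p o 0 ∧ (0 < p i 0 - p o 0 ∨ 0 < p i 1 - p o 1) := by
    intro i hi
    have h1 := ho i
    rw [Prod.Lex.toLex_le_toLex] at h1
    rcases h1 with h1 | ⟨h1, h2⟩
    · simp only at h1
      exact ⟨by linarith, Or.inl (by linarith)⟩
    · simp only at h1 h2
      refine ⟨by linarith, ?_⟩
      rcases h2.eq_or_lt with h3 | h3
      · exfalso
        exact hcomb p h i o i i hi hi hi 1 0 0 (by norm_num) (by norm_num) (by norm_num)
          (by norm_num) (by linarith) (by linarith)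
      · right; linarith
  set X : Fin n → ℝ := fun i => p i 0 - p o 0 with hX
  set Y : Fin n → ℝ := fun i => p i 1 - p o 1 with hY
  have hX0 : ∀ i, i ≠ o → 0 ≤ X i := fun i hi => (hlex i hi).1
  have hXY : ∀ i, i ≠ o → (0 < X i ∨ 0 < Y i) := fun i hi => (hlex i hi).2
  have hne : ∀ a b, a ≠ o → b ≠ o → a ≠ b → X a * Y b - Y a * X b ≠ 0 := by
    intro a b ha hb hab h0
    obtain ⟨e1, e2⟩ := par (hX0 a ha) (hXY a ha) (hX0 b hb) (hXY b hb) h0
    have sa := spos (hX0 a ha) (hXY a ha)
    have sb := spos (hX0 b hb) (hXY b hb)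
    set S := X a + |Y a| with hS
    set T := X b + |Y b| with hT
    rcases le_total T S with hl | hl
    · have t1 : T / S ≤ 1 := (div_le_one sa).2 hl
      have t0 : 0 ≤ T / S := by positivity
      have f1 : X b = T / S * X a := by field_simp; linarith
      have f2 : Y b = T / S * Y a := by field_simp; linarith
      refine hcomb p h o b a a (Ne.symm hb) hab hab (1 - T / S) (T / S) 0 (by linarith) t0 le_rfl
        (by ring) ?_ ?_
      · simp only [hX] at f1; linarith
      · simp only [hY] at f2; linarith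
    · have t1 : S / T ≤ 1 := (div_le_one sb).2 hl
      have t0 : 0 ≤ S / T := by positivity
      have f1 : X a = S / T * X b := by field_simp; linarith
      have f2 : Y a = S / T * Y b := by field_simp; linarith
      refine hcomb p h o a b b (Ne.symm ha) (Ne.symm hab) (Ne.symm hab) (1 - S / T) (S / T) 0
        (by linarith) t0 le_rfl (by ring) ?_ ?_
      · simp only [hX] at f1; linarith
      · simp only [hY] at f2; linarith
  let f : Fin n → ℝ := fun i => if i = o then -2 else Y i / (X i + |Y i|)
  have fo : f o = -2 := by simp [f]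
  have fi : ∀ i, i ≠ o → f i = Y i / (X i + |Y i|) := fun i hi => by simp [f, hi]
  have flt : ∀ a b, a ≠ o → b ≠ o → 0 < X a * Y b - Y a * X b → f a < f b := by
    intro a b ha hb hc
    rw [fi a ha, fi b hb]
    exact key_lt (hX0 a ha) (hXY a ha) (hX0 b hb) (hXY b hb) hc
  have fge : ∀ i, i ≠ o → -1 ≤ f i := by
    intro i hi
    rw [fi i hi, le_div_iff₀ (spos (hX0 i hi) (hXY i hi))]
    have := neg_abs_le (Y i)
    have := hX0 i hi
    linarith
  have fcr : ∀ a b, a ≠ o → b ≠ o → f a < f b → 0 < X a * Y b - Y a * X b := by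
    intro a b ha hb hc
    by_contra hn
    push Not at hn
    have hab : a ≠ b := by rintro rfl; exact lt_irrefl _ hc
    have h1 := hne a b ha hb hab
    have h2 : 0 < X b * Y a - Y b * X a := by
      have := lt_of_le_of_ne hn h1
      linarith
    exact lt_asymm hc (flt b a hb ha h2)
  have finj : ∀ a b, a ≠ b → f a ≠ f b := by
    intro a b hab hf
    by_cases ha : a = o
    · subst ha
      have := fge b (Ne.symm hab)
      rw [← hf, fo] at this
      norm_num at this
    · by_cases hb : b = o
      · subst hb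
        have := fge a hab
        rw [hf, fo] at this
        norm_num at this
      · rcases lt_or_gt_of_ne (hne a b ha hb hab) with h1 | h1
        · have := flt b a hb ha (by linarith)
          rw [hf] at this
          exact lt_irrefl _ this
        · have := flt a b ha hb h1
          rw [hf] at this
          exact lt_irrefl _ this
  refine ⟨Tuple.sort f, ?_⟩
  have hmono := Tuple.monotone_sort f
  have hst : ∀ i j, i < j → f (Tuple.sort f i) < f (Tuple.sort f j) := by
    intro i j hij
    refine lt_of_le_of_ne (hmono hij.le) (finj _ _ ?_)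
    intro he
    exact hij.ne ((Tuple.sort f).injective he)
  have hno : ∀ i j, i < j → Tuple.sort f j ≠ o := by
    intro i j hij he
    have h1 := hst i j hij
    rw [he, fo] at h1
    by_cases hi : Tuple.sort f i = o
    · rw [hi, fo] at h1; exact lt_irrefl _ h1
    · have := fge _ hi; linarith
  intro i j k hij hjk
  set a := Tuple.sort f i with ha
  set b := Tuple.sort f j with hb
  set c := Tuple.sort f k with hc
  have hbo : b ≠ o := hno i j hij
  have hco : c ≠ o := hno j k hjk
  have hfab : f a < f b := hst i j hij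
  have hfbc : f b < f c := hst j k hjk
  have hbc := fcr b c hbo hco hfbc
  by_cases hao : a = o
  · rw [hao]
    simpa [cross, hX, hY] using hbc
  · have hab := fcr a b hao hbo hfab
    have hac := fcr a c hao hco (hfab.trans hfbc)
    have key : X a * Y c - Y a * X c < (X b * Y c - Y b * X c) + (X a * Y b - Y a * X b) := by
      by_contra hn
      push Not at hn
      set D := X a * Y c - Y a * X c with hD
      have hlam : 0 ≤ (X b * Y c - Y b * X c) / D := by positivity
      have hmu : 0 ≤ (X a * Y b - Y a * X b) / D := by positivity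
      have hsum : (X b * Y c - Y b * X c) / D + (X a * Y b - Y a * X b) / D ≤ 1 := by
        rw [← add_div, div_le_one hac]; exact hn
      have hDne : D ≠ 0 := hac.ne'
      have f1 : X b = (X b * Y c - Y b * X c) / D * X a + (X a * Y b - Y a * X b) / D * X c := by
        field_simp
        rw [hD]; ring
      have f2 : Y b = (X b * Y c - Y b * X c) / D * Y a + (X a * Y b - Y a * X b) / D * Y c := by
        field_simp
        rw [hD]; ring
      have hba : a ≠ b := by rintro h9; rw [h9] at hfab; exact lt_irrefl _ hfab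
      have hcb : c ≠ b := by rintro h9; rw [h9] at hfbc; exact lt_irrefl _ hfbc
      refine hcomb p h o b a c (Ne.symm hbo) hba hcb
        (1 - (X b * Y c - Y b * X c) / D - (X a * Y b - Y a * X b) / D)
        ((X b * Y c - Y b * X c) / D) ((X a * Y b - Y a * X b) / D) (by linarith) hlam hmu
        (by ring) ?_ ?_
      · generalize (X b * Y c - Y b * X c) / D = l at *
        generalize (X a * Y b - Y a * X b) / D = m at *
        simp only [hX] at f1; linarith
      · generalize (X b * Y c - Y b * X c) / D = l at *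
        generalize (X a * Y b - Y a * X b) / D = m at *
        simp only [hY] at f2; linarith
    have e : cross (p a) (p b) (p c)
        = (X b * Y c - Y b * X c) + (X a * Y b - Y a * X b) - (X a * Y c - Y a * X c) := by
      simp only [cross, hX, hY]; ring
    rw [e]; linarith

end Pool.Agent.W31.ELV
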